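import Pool.Agent.GLE.StmtsA

/-!
# GLE, row FAB (helper7)
-/

noncomputable section

namespace Pool.Agent.GLE.H7

open MeasureTheory

theorem conc (κ : ℝ) (h0 : 0 ≤ κ) (h1 : κ ≤ 1) (j J : ℕ) (hj : j ≤ J) :
    (j : ℝ) * (1 - κ ^ J) ≤ J * (1 - κ ^ j) := by
  induction J, hj using Nat.le_induction with
  | base => exact le_refl _
  | succ J hJ ih =>
    have h2 : (j : ℝ) * (κ ^ J * (1 - κ)) ≤ 1 - κ ^ j := by
      have h3 : 1 - κ ^ j = (1 - κ) * ∑ i ∈ Finset.range j, κ ^ i := (mul_neg_geom_sum κ j).symm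
      have h4 : ∑ i ∈ Finset.range j, κ ^ J ≤ ∑ i ∈ Finset.range j, κ ^ i :=
        Finset.sum_le_sum fun i hi => pow_le_pow_of_le_one h0 h1
          ((Finset.mem_range.1 hi).le.trans hJ)
      rw [Finset.sum_const, Finset.card_range, nsmul_eq_mul] at h4
      rw [h3]
      have h5 : 0 ≤ 1 - κ := by linarith
      nlinarith [mul_le_mul_of_nonneg_left h4 h5]
    have h6 : κ ^ (J + 1) = κ ^ J * κ := pow_succ κ J
    push_cast
    rw [h6]
    nlinarith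

theorem rt_pow (a : ℝ) (ha : 0 < a) (N : ℕ) (hN : N ≠ 0) : (a ^ ((N : ℝ)⁻¹)) ^ N = a :=
  Real.rpow_inv_natCast_pow ha.le hN

theorem log_bd (L : ℕ) (hL : 1 ≤ L) : Real.log (80 / (16 / 80 ^ L)) ≤ 7 * L := by
  have h1 : (80 : ℝ) / (16 / 80 ^ L) = 5 * 80 ^ L := by
    field_simp
    norm_num
  rw [h1]
  have h2 : (5 : ℝ) * 80 ^ L ≤ 400 ^ L := by
    have h3 : (400 : ℝ) ^ L = 5 ^ L * 80 ^ L := by
      rw [← mul_pow]
      norm_num
    rw [h3]
    have h4 : (5 : ℝ) ≤ 5 ^ L := by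
      calc (5 : ℝ) = 5 ^ 1 := by norm_num
        _ ≤ 5 ^ L := pow_le_pow_right₀ (by norm_num) hL
    exact mul_le_mul_of_nonneg_right h4 (by positivity)
  have h5 : (400 : ℝ) ≤ Real.exp 7 := by
    have h6 : Real.exp 7 = Real.exp 1 ^ 7 := by
      rw [← Real.exp_nat_mul]
      norm_num
    rw [h6]
    calc (400 : ℝ) ≤ 2.7 ^ 7 := by norm_num
      _ ≤ Real.exp 1 ^ 7 := pow_le_pow_left₀ (by norm_num) (by linarith [Real.exp_one_gt_d9]) 7
  calc Real.log (5 * 80 ^ L) ≤ Real.log (400 ^ L) := Real.log_le_log (by positivity) h2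
    _ = L * Real.log 400 := by rw [Real.log_pow]
    _ ≤ L * 7 := by
        refine mul_le_mul_of_nonneg_left ?_ (Nat.cast_nonneg _)
        rw [Real.log_le_iff_le_exp (by norm_num)]
        exact h5
    _ = 7 * L := by ring

theorem fab (hI : InjStmt) (hB : BndStmt) (hA : AreStmt) (hS : BesStmt) (hG : GenStmt) :
    FabStmt := by
  refine ⟨20000, by norm_num, fun L c x hL hc hx => ?_⟩
  obtain ⟨G, hG1⟩ := hG L c x hc hx
  obtain ⟨-, hI2, hI3⟩ := hI L c hc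
  have hN2 : 2 ≤ 2 ^ L := by
    calc 2 = 2 ^ 1 := rfl
      _ ≤ 2 ^ L := Nat.pow_le_pow_right (by norm_num) hL
  set N : ℕ := 2 ^ L with hN
  have hN0 : N ≠ 0 := by omega
  have hNR : (0 : ℝ) < N := by exact_mod_cast Nat.pos_of_ne_zero hN0
  have hinv : 0 < (N : ℝ)⁻¹ := inv_pos.2 hNR
  set ρ0 : ℝ := (1 / 16) ^ ((N : ℝ)⁻¹) with hρ0
  set ρ1 : ℝ := (1 / 64) ^ ((N : ℝ)⁻¹) with hρ1
  set ρ2 : ℝ := (1 / 32) ^ ((N : ℝ)⁻¹) with hρ2
  have p0 : ρ0 ^ N = 1 / 16 := rt_pow _ (by norm_num) N hN0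
  have p1 : ρ1 ^ N = 1 / 64 := rt_pow _ (by norm_num) N hN0
  have p2 : ρ2 ^ N = 1 / 32 := rt_pow _ (by norm_num) N hN0
  have q0 : 0 < ρ0 := Real.rpow_pos_of_pos (by norm_num) _
  have q1 : 0 < ρ1 := Real.rpow_pos_of_pos (by norm_num) _
  have q2 : 0 < ρ2 := Real.rpow_pos_of_pos (by norm_num) _
  have l12 : ρ1 < ρ2 := Real.rpow_lt_rpow (by norm_num) (by norm_num) hinv
  have l20 : ρ2 < ρ0 := Real.rpow_lt_rpow (by norm_num) (by norm_num) hinv
  have hdom : ∀ t : ℂ, ‖t‖ < ρ0 → 16 * ‖t‖ ^ N < 1 := by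
    intro t ht
    have h1 : ‖t‖ ^ N < ρ0 ^ N := pow_lt_pow_left₀ ht (norm_nonneg _) hN0
    rw [p0] at h1
    linarith
  have hbes := hS (fun n => Fb c x L n) G ρ0 ρ1 ρ2 q1 l12 l20
    (fun t ht => (hG1 t (hdom t ht)).1) (N - 1)
  set U : Set ℂ := {t : ℂ | ρ1 < ‖t‖ ∧ ‖t‖ < ρ2} with hU
  have hUo : IsOpen U := (isOpen_lt continuous_const continuous_norm).inter
    (isOpen_lt continuous_norm continuous_const)
  have hUt : ∀ t ∈ U, t ≠ 0 ∧ 16 * ‖t‖ ^ N < 1 := by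
    intro t ht
    refine ⟨?_, hdom t (ht.2.trans l20)⟩
    intro h
    have := ht.1
    rw [h, norm_zero] at this
    linarith
  have hc16 : ‖c‖ ≤ 16 := by
    have h1 := hc 1 le_rfl hL
    have h2 : av 1 c = c := by simp [av]
    rwa [h2] at h1
  have hare := hA U (fun t => As c L t / t - x) (16 / 80 ^ L) 80 (by positivity) (by
      have h1 : (1 : ℝ) ≤ 80 ^ L := one_le_pow₀ (by norm_num)
      rw [div_le_iff₀ (by positivity)]
      linarith) hUo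
    (fun t ht => ((hG1 t (hUt t ht).2).2.2 (hUt t ht).1).1.differentiableWithinAt)
    (by
      intro t ht t' ht' h
      refine hI3 (hUt t ht) (hUt t' ht') ?_
      simp only at h ⊢
      exact sub_left_injective h)
    (by
      intro t ht
      have h1 := hI2 t (hUt t ht).1 (hUt t ht).2
      have h2 : ‖(fun z : ℂ => z ^ 2 + c)^[L] (As c L t / t)‖ = 1 / ‖t‖ ^ N := by
        rw [h1, norm_pow, norm_div, norm_one, one_div, inv_pow, one_div]
      have ht0 : 0 < ‖t‖ := norm_pos_iff.2 (hUt t ht).1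
      have h3 : ‖t‖ ^ N < 1 / 32 := by
        rw [← p2]
        exact pow_lt_pow_left₀ ht.2 (norm_nonneg _) hN0
      have h4 : 1 / 64 < ‖t‖ ^ N := by
        rw [← p1]
        exact pow_lt_pow_left₀ ht.1 q1.le hN0
      have h5 : 0 < ‖t‖ ^ N := by positivity
      refine hB L c x _ hc16 hx ?_ ?_
      · rw [h2, le_div_iff₀ h5]
        linarith
      · rw [h2, div_le_iff₀ h5]
        linarith)
  have hcongr : ∫ t in U, ‖deriv (fun t => As c L t / t - x) t‖ ^ 2 / ‖As c L t / t - x‖ ^ 2 =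
      ∫ t in U, ‖G t‖ ^ 2 / ‖t‖ ^ 2 := by
    refine setIntegral_congr_fun hUo.measurableSet fun t ht => ?_
    have h1 := ((hG1 t (hUt t ht).2).2.2 (hUt t ht).1).2
    rw [← div_pow, ← div_pow, ← norm_div, ← norm_div, h1, norm_neg]
  have h1 := hare.2
  rw [hcongr] at h1
  have h2 := hbes.trans h1
  have hpi : 0 < 2 * Real.pi := by positivity
  have h3 := le_of_mul_le_mul_left h2 hpi
  have h4 := h3.trans (log_bd L hL)
  -- lower bound of the weights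
  set κ : ℝ := ρ1 / ρ2 with hκ
  have hκN : κ ^ N = 1 / 2 := by
    rw [hκ, div_pow, p1, p2]
    norm_num
  have hκ0 : 0 ≤ κ := by positivity
  have hκ1 : κ ≤ 1 := by
    rw [hκ, div_le_one q2]
    exact l12.le
  have hρ21 : ρ2 ≤ 1 := by
    by_contra h
    push Not at h
    have h5 : 1 ≤ ρ2 ^ N := one_le_pow₀ h.le
    rw [p2] at h5
    norm_num at h5
  have hw : ∀ n ∈ Finset.range (N - 1), ‖Fb c x L (n + 1)‖ ^ 2 * (3 / (8192 * (N : ℝ))) ≤
      ‖Fb c x L (n + 1)‖ ^ 2 *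
      ((ρ2 ^ (2 * (n + 1)) - ρ1 ^ (2 * (n + 1))) / (2 * (n + 1))) := by
    intro n hn
    refine mul_le_mul_of_nonneg_left ?_ (by positivity)
    have hnN : n + 1 ≤ N := by
      have := Finset.mem_range.1 hn
      omega
    have e1 : ρ1 ^ (2 * (n + 1)) = ρ2 ^ (2 * (n + 1)) * κ ^ (2 * (n + 1)) := by
      rw [← mul_pow, hκ]
      congr 1
      field_simp
    have e2 : (1 / 1024 : ℝ) ≤ ρ2 ^ (2 * (n + 1)) := by
      calc (1 / 1024 : ℝ) = (ρ2 ^ N) ^ 2 := by rw [p2]; norm_num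
        _ = ρ2 ^ (2 * N) := by rw [← pow_mul, mul_comm N 2]
        _ ≤ ρ2 ^ (2 * (n + 1)) := pow_le_pow_of_le_one q2.le hρ21 (by omega)
    have e3 := conc κ hκ0 hκ1 (2 * (n + 1)) (2 * N) (by omega)
    have e4 : κ ^ (2 * N) = 1 / 4 := by
      rw [mul_comm, pow_mul, hκN]
      norm_num
    rw [e4] at e3
    push_cast at e3
    have e5 : (3 / 4 : ℝ) * ((n + 1) / N) ≤ 1 - κ ^ (2 * (n + 1)) := by
      rw [← mul_div_assoc, div_le_iff₀ hNR]
      nlinarith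
    rw [e1, le_div_iff₀ (by positivity)]
    have e6 : (3 / (8192 * (N : ℝ))) * (2 * ((n : ℝ) + 1)) = (1 / 1024) * ((3 / 4) * ((n + 1) / N)) := by
      field_simp
      norm_num
    rw [e6]
    have e7 : ρ2 ^ (2 * (n + 1)) - ρ2 ^ (2 * (n + 1)) * κ ^ (2 * (n + 1)) =
        ρ2 ^ (2 * (n + 1)) * (1 - κ ^ (2 * (n + 1))) := by ring
    rw [e7]
    exact mul_le_mul e2 e5 (by positivity) (by positivity)
  have h5 := (Finset.sum_le_sum hw).trans h4
  rw [← Finset.sum_mul] at h5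
  have h6 : ∑ n ∈ Finset.range N, ‖Fb c x L n‖ ^ 2 =
      (∑ n ∈ Finset.range (N - 1), ‖Fb c x L (n + 1)‖ ^ 2) + ‖Fb c x L 0‖ ^ 2 := by
    have h7 : N = (N - 1) + 1 := by omega
    conv_lhs => rw [h7]
    rw [Finset.sum_range_succ']
  rw [h6]
  have h8 : Fb c x L 0 = 1 := by simp [Fb]
  rw [h8, norm_one]
  have hNc : ((2 : ℝ) ^ L) = N := by
    rw [hN]
    push_cast
    rfl
  rw [hNc]
  have h9 : (∑ n ∈ Finset.range (N - 1), ‖Fb c x L (n + 1)‖ ^ 2) ≤ 7 * L * (8192 * N / 3) := by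
    have h10 : (∑ n ∈ Finset.range (N - 1), ‖Fb c x L (n + 1)‖ ^ 2) =
        ((∑ n ∈ Finset.range (N - 1), ‖Fb c x L (n + 1)‖ ^ 2) * (3 / (8192 * (N : ℝ)))) *
          (8192 * N / 3) := by
      field_simp
    rw [h10]
    exact mul_le_mul_of_nonneg_right h5 (by positivity)
  have h11 : 0 ≤ (L : ℝ) * N := by positivity
  nlinarith

end Pool.Agent.GLE.H7
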